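import Mathlib

namespace Pool.Agent.Results.MP_7fb2f0_pr.Q1

open SimpleGraph Finset

/-- Edge sets of connected spanning subgraphs of `G` with excess `k`. -/
def C {V : Type} (G : SimpleGraph V) (k : ℤ) : Set (Finset (Sym2 V)) :=
  {ω : Finset (Sym2 V) | ↑ω ⊆ G.edgeSet ∧ (#ω : ℤ) = Nat.card V + k ∧ (fromEdgeSet (ω : Set (Sym2 V))).Connected}

/-- The edge marginal `p_e(k)`. -/
noncomputable def p {V : Type} (G : SimpleGraph V) (e : Sym2 V) (k : ℤ) : ℚ :=
  ({ω ∈ C G k | e ∈ ω}.ncard : ℚ) / (C G k).ncard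

abbrev V := Fin 11

open Classical in
noncomputable def N (K : SimpleGraph V) (s : Finset (Sym2 V)) (m : ℕ) : ℕ :=
  #((powersetCard m s).filter fun ω : Finset (Sym2 V) => (K ⊔ fromEdgeSet (ω : Set (Sym2 V))).Connected)

lemma N_ins (K : SimpleGraph V) {s : Finset (Sym2 V)} {e : Sym2 V} (h : e ∉ s) (m : ℕ) :
    N K (insert e s) (m + 1) = N K s (m + 1) + N (K ⊔ fromEdgeSet {e}) s m := by
  classical
  unfold N
  rw [powersetCard_succ_insert h, filter_union, card_union_of_disjoint, filter_image,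
    card_image_of_injOn]
  · congr 3; ext ω
    rw [coe_insert, Set.insert_eq, fromEdgeSet_union, sup_assoc]
  · intro a ha b hb g
    have (t) (ht : t ∈ powersetCard m s) : e ∉ t := fun q => h ((mem_powersetCard.1 ht).1 q)
    rw [← erase_insert (this a (mem_filter.1 ha).1), g, erase_insert (this b (mem_filter.1 hb).1)]
  · refine disjoint_filter_filter (disjoint_left.2 fun t ht hu => ?_)
    obtain ⟨u, -, rfl⟩ := mem_image.1 hu
    exact h ((mem_powersetCard.1 ht).1 (mem_insert_self _ _))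

def force (n : ℕ) (g : ℕ → ℕ) : ℕ := Nat.rec (g 0) (fun k _ => g k.succ) n
lemma force_eq (n g) : force n g = g n := by cases n <;> rfl

def mg (f : ℕ → ℕ) (x y z : ℕ) : ℕ := force (f z) fun w => Bool.rec w y (Nat.beq w x)
lemma b1 {x y : ℕ} (h : x = y) : Nat.beq x y = true := by simpa using h
lemma b0 {x y : ℕ} (h : x ≠ y) : Nat.beq x y = false :=
  Bool.eq_false_iff.2 fun g => h (Nat.eq_of_beq_eq_true g)
lemma mg_eq (f x y z) : mg f x y z = if f z = x then y else f z := by
  rw [mg, force_eq]; split_ifs with h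
  · rw [b1 h]
  · rw [b0 h]

noncomputable def cnt (L : List (ℕ × ℕ)) : (ℕ → ℕ) → ℕ → ℕ → ℕ → ℕ :=
  List.rec (fun _ c _ _ => Nat.rec 1 (fun _ _ => 0) c) (fun e _ ih f c m r =>
    Nat.rec (Nat.rec 1 (fun _ _ => 0) c) (fun m _ =>
      Nat.add (Nat.rec 0 (fun r _ => ih f c m.succ r) r) (force (f e.1) fun x => force (f e.2) fun y =>
        Bool.rec (force c.pred fun d => ih (mg f x y) d m r) (ih f c m r) (Nat.beq x y))) m) L

def Inv (K : SimpleGraph V) (f : ℕ → ℕ) (c : ℕ) : Prop :=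
  (∀ a b : V, K.Reachable a b ↔ f a = f b) ∧ #(univ.image fun a : V => f a) = c + 1

lemma cc (a b L f c m r) : cnt ((a, b) :: L) f c (m + 1) r =
    Nat.rec 0 (fun r _ => cnt L f c (m + 1) r) r + if f a = f b then cnt L f c m r else
      cnt L (mg f (f a) (f b)) (c - 1) m r := by
  refine congrArg₂ Nat.add rfl ((force_eq _ _).trans ((force_eq _ _).trans ?_))
  split_ifs with q
  · rw [b1 q]; rfl
  · rw [b0 q]; exact force_eq _ _

lemma N0 {K f c} (h : Inv K f c) (s) : N K s 0 = Nat.rec 1 (fun _ _ => 0) c := by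
  have : K.Connected ↔ c = 0 := by
    rw [connected_iff, Preconnected, and_iff_left ⟨0⟩, ← Nat.le_zero, ← Nat.add_le_add_iff_right (n := 1),
      ← h.2, card_le_one]
    simp [h.1]
  cases c <;> simp [N, filter_singleton, this]

lemma step {K f c} (h : Inv K f c) (a b : V) (x y : V) :
    (K ⊔ fromEdgeSet {s(a, b)}).Reachable x y ↔ mg f (f a) (f b) x = mg f (f a) (f b) y := by
  have r : ∀ {u v : V}, f u = f v → (K ⊔ fromEdgeSet {s(a, b)}).Reachable u v :=
    fun g => ((h.1 _ _).2 g).mono le_sup_left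
  have e : (K ⊔ fromEdgeSet {s(a, b)}).Reachable a b := by
    by_cases g : a = b
    · rw [g]
    · exact Adj.reachable (Or.inr ⟨rfl, g⟩)
  constructor
  · rintro ⟨w⟩
    induction w with
    | nil => rfl
    | cons g _ ih =>
      refine Eq.trans ?_ ih
      simp only [mg_eq]
      rcases g with g | ⟨g, -⟩
      · rw [(h.1 _ _).1 g.reachable]
      · rcases Sym2.eq_iff.1 g with ⟨rfl, rfl⟩ | ⟨rfl, rfl⟩ <;> simp
  · simp only [mg_eq]
    split_ifs with u v v <;> intro g
    exacts [r (u.trans v.symm), (r u).trans (e.trans (r g)), (r g).trans (e.symm.trans (r v.symm)), r g]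

lemma spec (L : List (V × V)) (hL : (L.map fun e => s(e.1, e.2)).Nodup) :
    ∀ K f c m r, Inv K f c → L.length = m + r →
    N K (L.map fun e => s(e.1, e.2)).toFinset m = cnt (L.map fun e => (e.1, e.2)) f c m r := by
  induction L with
  | nil =>
    intro K f c m r h g
    obtain rfl : m = 0 := by simp at g; omega
    exact N0 h _
  | cons e L ih =>
    intro K f c m r h g
    obtain ⟨a, b⟩ := e
    rw [List.map_cons, List.nodup_cons] at hL
    cases m with
    | zero => exact N0 h _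
    | succ m =>
      rw [List.map_cons, List.toFinset_cons, N_ins _ (by simpa using hL.1)]
      have g : L.length = m + r := by simp at g; omega
      rw [List.map_cons, cc]
      refine congrArg₂ Nat.add ?_ ?_
      · cases r with
        | zero => simp [N, powersetCard_eq_empty.2 ((List.toFinset_card_le _).trans_lt
            (show (L.map _).length < m + 1 by simp; omega))]
        | succ r => exact ih hL.2 _ _ _ _ _ h (by omega)
      · split_ifs with q
        · refine ih hL.2 _ _ _ _ _ ⟨fun x y => ?_, h.2⟩ g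
          rw [step h, mg_eq, mg_eq, ← q]
          split_ifs <;> simp_all [eq_comm]
        · have m1 : f a ∈ univ.image fun a : V => f a := mem_image_of_mem _ (mem_univ a)
          refine ih hL.2 _ _ _ _ _ ⟨step h a b, ?_⟩ g
          have : (univ.image fun x : V => mg f (f a) (f b) x) = (univ.image fun a : V => f a).erase (f a) := by
            ext t; simp only [mg_eq, mem_image, mem_erase, mem_univ, true_and]
            constructor
            · rintro ⟨x, rfl⟩
              split_ifs with u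
              exacts [⟨Ne.symm q, b, rfl⟩, ⟨u, x, rfl⟩]
            · rintro ⟨u, x, rfl⟩
              exact ⟨x, if_neg u⟩
          have t := one_lt_card.2 ⟨_, m1, _, mem_image_of_mem _ (mem_univ b), q⟩
          rw [this, card_erase_of_mem m1, h.2]
          rw [h.2] at t
          omega

def L : List (V × V) := [(0,1),(1,2),(0,2),(2,3),(3,4),(2,4),(4,5),(5,6),(4,6),(6,7),(7,8),(6,8),
  (8,9),(9,10),(8,10)]
def L' : List (ℕ × ℕ) := [(0,1),(1,2),(0,2),(2,3),(3,4),(2,4),(4,5),(5,6),(4,6),(6,7),(7,8),(6,8),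
  (8,9),(9,10),(8,10)]

def s : Finset (Sym2 V) := (L.map fun e => s(e.1, e.2)).toFinset
def e : Sym2 V := s(0, 10)

lemma i0 : Inv ⊥ id 10 := ⟨fun a b => by simp [Fin.ext_iff], by decide⟩
lemma c1 : N ⊥ s 10 = 243 := (spec L (by decide) _ _ _ _ 5 i0 rfl).trans
  (show cnt L' id 10 10 5 = 243 by decide +kernel)
lemma c2 : N ⊥ s 11 = 405 := (spec L (by decide) _ _ _ _ 4 i0 rfl).trans
  (show cnt L' id 10 11 4 = 405 by decide +kernel)
lemma c3 : N ⊥ (insert e s) 10 = 1053 := (spec ((0, 10) :: L) (by decide) _ _ _ _ 6 i0 rfl).trans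
  (show cnt ((0, 10) :: L') id 10 10 6 = 1053 by decide +kernel)
lemma c4 : N ⊥ (insert e s) 11 = 1728 := (spec ((0, 10) :: L) (by decide) _ _ _ _ 5 i0 rfl).trans
  (show cnt ((0, 10) :: L') id 10 11 5 = 1728 by decide +kernel)

def G : SimpleGraph V := fromEdgeSet ↑(insert e s)
lemma hG : G.edgeSet = ↑(insert e s) := by
  rw [G, edgeSet_fromEdgeSet, sdiff_eq_left, Set.disjoint_left]
  exact fun x hx => (by decide : ∀ x ∈ insert e s, ¬ x.IsDiag) x hx

lemma Nn (s m) : N ⊥ s m = {ω : Finset (Sym2 V) | ω ⊆ s ∧ #ω = m ∧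
    (fromEdgeSet (ω : Set (Sym2 V))).Connected}.ncard := by
  refine (Set.ncard_coe_finset _).symm.trans (congrArg Set.ncard (Set.ext fun ω => ?_))
  simp only [mem_coe, mem_filter, mem_powersetCard, bot_sup_eq, Set.mem_setOf_eq, and_assoc]

lemma hC (k : ℤ) (m : ℕ) (h : (m : ℤ) = 11 + k) : (C G k).ncard = N ⊥ (insert e s) m ∧
    {ω ∈ C G k | e ∈ ω}.ncard + N ⊥ s m = N ⊥ (insert e s) m := by
  have : C G k = {ω : Finset (Sym2 V) | ω ⊆ insert e s ∧ #ω = m ∧
      (fromEdgeSet (ω : Set (Sym2 V))).Connected} := by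
    ext ω
    rw [C, hG, Nat.card_eq_fintype_card, Fintype.card_fin, Set.mem_setOf_eq, Set.mem_setOf_eq,
      coe_subset, Nat.cast_ofNat, ← h, Nat.cast_inj]
  rw [Nn, Nn, this]
  refine ⟨rfl, ?_⟩
  have t : e ∉ s := by decide
  rw [← Set.ncard_union_eq (Set.disjoint_left.2 fun ω a b => t (b.1 a.2))]
  congr 1; ext ω
  refine ⟨fun g => g.elim (·.1) fun ⟨a, b⟩ => ⟨a.trans (subset_insert _ _), b⟩, fun g => ?_⟩
  by_cases d : e ∈ ω
  exacts [Or.inl ⟨g, d⟩, Or.inr ⟨(subset_insert_iff_of_notMem d).1 g.1, g.2⟩]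

theorem result : ∃ (G : SimpleGraph (Fin 11)) (e : Sym2 (Fin 11)), G.Connected ∧ e ∈ G.edgeSet ∧
    G.edgeSet.ncard = 16 ∧ p G e (-1) = 810 / 1053 ∧ p G e 0 = 1323 / 1728 ∧ p G e 0 < p G e (-1) := by
  have a := hC (-1) 10 rfl
  have b := hC 0 11 rfl
  rw [c1, c3] at a
  rw [c2, c4] at b
  have u : p G e (-1) = 810 / 1053 := by
    rw [p, a.1, show {ω ∈ C G (-1) | e ∈ ω}.ncard = 810 by omega]; norm_num
  have v : p G e 0 = 1323 / 1728 := by
    rw [p, b.1, show {ω ∈ C G 0 | e ∈ ω}.ncard = 1323 by omega]; norm_num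
  refine ⟨G, e, ?_, by simp [hG], by rw [hG, Set.ncard_coe_finset]; decide, u, v, by rw [u, v]; norm_num⟩
  obtain ⟨ω, h1, -, h2⟩ := Set.nonempty_of_ncard_ne_zero (b.1 ▸ by norm_num : (C G 0).ncard ≠ 0)
  exact h2.mono ((fromEdgeSet_le _).2 (Set.diff_subset.trans h1))

end Pool.Agent.Results.MP_7fb2f0_pr.Q1
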